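import Mathlib
import Pool.Agent.MP_70de85_al.Defs

-- part MP_70de85_al.Words
section

/-!
The free algebra on two generators over a commutative ring: degrees and low coefficients.
-/

namespace Pool.Agent.MP_70de85_al

open MonoidAlgebra

/-- Words in two letters. -/
abbrev Wd := FreeMonoid Bool

/-- The free associative unital algebra on two generators. -/
abbrev FA (R : Type) [CommRing R] := MonoidAlgebra R Wd

variable {R : Type} [CommRing R]

/-- A monomial. -/
noncomputable def mon (R : Type) [CommRing R] (w : Wd) : FA R := single w 1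

lemma mon_mul (u v : Wd) : mon R (u * v) = mon R u * mon R v := by simp [mon]

lemma mon_one : mon R 1 = 1 := rfl

/-- Elements all of whose monomials have length with property `p`. -/
noncomputable def HP (R : Type) [CommRing R] (p : ℕ → Prop) : Submodule R (FA R) :=
  MonoidAlgebra.supported R R {w : Wd | p w.length}

lemma mem_HP {p : ℕ → Prop} {g : FA R} :
    g ∈ HP R p ↔ ∀ w : Wd, ¬ p w.length → g.coeff w = 0 := by
  unfold HP
  rw [mem_supported']
  rfl

lemma mon_mem_HP {p : ℕ → Prop} {w : Wd} (h : p w.length) : mon R w ∈ HP R p := by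
  unfold HP
  rw [supported_eq_span_single]
  exact Submodule.subset_span ⟨w, h, rfl⟩

lemma HP_mono {p q : ℕ → Prop} (h : ∀ n, p n → q n) : HP R p ≤ HP R q :=
  supported_mono fun _ hw => h _ hw

lemma HP_induction {p : ℕ → Prop} {motive : FA R → Prop} {g : FA R} (hg : g ∈ HP R p)
    (hmon : ∀ w : Wd, p w.length → motive (mon R w)) (hzero : motive 0)
    (hadd : ∀ a b, motive a → motive b → motive (a + b))
    (hsmul : ∀ (c : R) a, motive a → motive (c • a)) : motive g := by
  unfold HP at hg
  rw [supported_eq_span_single] at hg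
  induction hg using Submodule.span_induction with
  | mem x hx =>
    obtain ⟨w, hw, rfl⟩ := hx
    exact hmon w hw
  | zero => exact hzero
  | add a b _ _ ha hb => exact hadd a b ha hb
  | smul c a _ ha => exact hsmul c a ha

lemma HP_le {p : ℕ → Prop} {U : Submodule R (FA R)} (h : ∀ w : Wd, p w.length → mon R w ∈ U) :
    HP R p ≤ U := fun _ hg =>
  HP_induction (motive := fun g => g ∈ U) hg h U.zero_mem (fun _ _ => U.add_mem)
    (fun c _ => U.smul_mem c)

lemma mul_mem_HP {p q r : ℕ → Prop} (h : ∀ m n, p m → q n → r (m + n)) {a b : FA R}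
    (ha : a ∈ HP R p) (hb : b ∈ HP R q) : a * b ∈ HP R r := by
  refine HP_induction (motive := fun a => a * b ∈ HP R r) ha ?_ (by simp) ?_ ?_
  · intro u hu
    refine HP_induction (motive := fun b => mon R u * b ∈ HP R r) hb ?_ (by simp) ?_ ?_
    · intro v hv
      rw [← mon_mul]
      apply mon_mem_HP
      rw [FreeMonoid.length_mul]
      exact h _ _ hu hv
    · intro a b ha hb
      rw [mul_add]
      exact Submodule.add_mem _ ha hb
    · intro c a ha
      rw [mul_smul_comm]
      exact Submodule.smul_mem _ _ ha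
  · intro a b ha hb
    rw [add_mul]
    exact Submodule.add_mem _ ha hb
  · intro c a ha
    rw [smul_mul_assoc]
    exact Submodule.smul_mem _ _ ha

/-- Homogeneous elements of degree `n`. -/
noncomputable abbrev Hn (R : Type) [CommRing R] (n : ℕ) : Submodule R (FA R) := HP R (· = n)

/-- Elements of order at least `n`. -/
noncomputable abbrev Hge (R : Type) [CommRing R] (n : ℕ) : Submodule R (FA R) := HP R (n ≤ ·)

lemma mul_mem_Hn {m n : ℕ} {a b : FA R} (ha : a ∈ Hn R m) (hb : b ∈ Hn R n) :
    a * b ∈ Hn R (m + n) :=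
  mul_mem_HP (fun _ _ h1 h2 => by rw [h1, h2]) ha hb

lemma mul_mem_Hge {m n : ℕ} {a b : FA R} (ha : a ∈ Hge R m) (hb : b ∈ Hge R n) :
    a * b ∈ Hge R (m + n) :=
  mul_mem_HP (fun _ _ h1 h2 => Nat.add_le_add h1 h2) ha hb

lemma Hge_mono {m n : ℕ} (h : m ≤ n) : Hge R n ≤ Hge R m :=
  HP_mono fun _ hk => h.trans hk

lemma Hn_le_Hge {m n : ℕ} (h : m ≤ n) : Hn R n ≤ Hge R m :=
  HP_mono fun _ hk => h.trans hk.ge

lemma mem_Hge_one {g : FA R} : g ∈ Hge R 1 ↔ g.coeff 1 = 0 := by
  rw [mem_HP]
  constructor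
  · intro h
    exact h 1 (by simp)
  · intro h w hw
    have : w = 1 := by
      rw [← FreeMonoid.length_eq_zero]
      omega
    rw [this, h]

lemma coeff_eq_zero_of_mem_Hge {n : ℕ} {g : FA R} (hg : g ∈ Hge R n) {w : Wd}
    (hw : w.length < n) : g.coeff w = 0 :=
  mem_HP.1 hg w (by omega)

/-- A letter as an element of the algebra. -/
noncomputable def ltr (R : Type) [CommRing R] (z : Bool) : FA R := mon R (FreeMonoid.of z)

lemma ltr_mem_Hn (z : Bool) : ltr R z ∈ Hn R 1 := mon_mem_HP rfl

lemma ltr_mem_Hge (z : Bool) : ltr R z ∈ Hge R 1 := mon_mem_HP le_rfl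

lemma coeff_mon [DecidableEq Wd] (u v : Wd) : (mon R u).coeff v = if u = v then 1 else 0 := by
  simp [mon, Finsupp.single_apply]

/-- An element of order at least one with vanishing linear coefficients has order at least two. -/
lemma mem_Hge_two {g : FA R} (hg : g ∈ Hge R 1) (h : ∀ z, g.coeff (FreeMonoid.of z) = 0) :
    g ∈ Hge R 2 := by
  rw [mem_HP]
  intro w hw
  rcases (by omega : w.length < 1 ∨ w.length = 1) with h1 | h1
  · exact coeff_eq_zero_of_mem_Hge hg h1
  · obtain ⟨z, rfl⟩ := FreeMonoid.length_eq_one.1 h1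
    exact h z

/-- The coefficient of a word of length two in a product of elements without constant term. -/
lemma coeff_mul_two {a b : FA R} (ha : a ∈ Hge R 1) (hb : b ∈ Hge R 1) (s t : Bool) :
    (a * b).coeff (FreeMonoid.of s * FreeMonoid.of t) =
      a.coeff (FreeMonoid.of s) * b.coeff (FreeMonoid.of t) := by
  classical
  refine HP_induction (motive := fun a => (a * b).coeff (FreeMonoid.of s * FreeMonoid.of t) =
      a.coeff (FreeMonoid.of s) * b.coeff (FreeMonoid.of t)) ha ?_ (by simp) ?_ ?_
  · intro u hu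
    refine HP_induction (motive := fun b =>
      (mon R u * b).coeff (FreeMonoid.of s * FreeMonoid.of t) =
        (mon R u).coeff (FreeMonoid.of s) * b.coeff (FreeMonoid.of t)) hb ?_ (by simp) ?_ ?_
    · intro v hv
      rw [← mon_mul, coeff_mon, coeff_mon, coeff_mon]
      by_cases h : u * v = FreeMonoid.of s * FreeMonoid.of t
      · have hl := congrArg FreeMonoid.length h
        simp only [FreeMonoid.length_mul, FreeMonoid.length_of] at hl
        obtain ⟨z, rfl⟩ := FreeMonoid.length_eq_one.1 (by omega : u.length = 1)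
        obtain ⟨z', rfl⟩ := FreeMonoid.length_eq_one.1 (by omega : v.length = 1)
        have h' := congrArg FreeMonoid.toList h
        simp only [FreeMonoid.toList_mul, FreeMonoid.toList_of, List.cons_append,
          List.nil_append, List.cons.injEq, and_true] at h'
        obtain ⟨rfl, rfl⟩ := h'
        simp
      · rw [if_neg h]
        by_cases h1 : u = FreeMonoid.of s
        · by_cases h2 : v = FreeMonoid.of t
          · exact absurd (by rw [h1, h2]) h
          · simp [h2]
        · simp [h1]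
    · intro a b ha hb
      simp [mul_add, ha, hb]
    · intro c a ha
      rw [mul_smul_comm]
      simp only [coeff_smul, Finsupp.smul_apply, ha, smul_eq_mul]
      ring
  · intro a b ha hb
    simp [add_mul, ha, hb]
  · intro c a ha
    rw [smul_mul_assoc]
    simp only [coeff_smul, Finsupp.smul_apply, ha, smul_eq_mul]
    ring

/-- The homogeneous component of degree `n`. -/
noncomputable def comp (n : ℕ) (g : FA R) : FA R :=
  MonoidAlgebra.ofCoeff (g.coeff.filter fun w => w.length = n)

lemma coeff_comp (n : ℕ) (g : FA R) (w : Wd) :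
    (comp n g).coeff w = if w.length = n then g.coeff w else 0 := by
  simp [comp, Finsupp.filter_apply]

lemma comp_mem_Hn (n : ℕ) (g : FA R) : comp n g ∈ Hn R n := by
  rw [mem_HP]
  intro w hw
  rw [coeff_comp, if_neg hw]

lemma comp_eq_zero {n N : ℕ} {g : FA R} (hg : g ∈ Hge R N) (h : n < N) : comp n g = 0 := by
  ext w
  rw [coeff_comp]
  split_ifs with hw
  · simpa using coeff_eq_zero_of_mem_Hge hg (by omega)
  · simp

lemma mem_of_comp_mem {U : Submodule R (FA R)} {g : FA R} (h : ∀ n, comp n g ∈ U) : g ∈ U := by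
  classical
  have : g = ∑ n ∈ g.coeff.support.image FreeMonoid.length, comp n g := by
    ext w
    simp only [coeff_sum, Finsupp.coe_finsetSum, Finset.sum_apply, coeff_comp]
    rw [Finset.sum_ite_eq]
    split_ifs with hw
    · rfl
    · by_contra hne
      exact hw (Finset.mem_image.2 ⟨w, Finsupp.mem_support_iff.2 hne, rfl⟩)
  rw [this]
  exact Submodule.sum_mem _ fun n _ => h n

/-- The words of length `n`. -/
noncomputable def wordsEquiv (n : ℕ) : {w : Wd | w.length = n} ≃ List.Vector Bool n :=
  Equiv.refl _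

lemma finrank_Hn (k : Type) [Field k] (n : ℕ) : Module.finrank k (Hn k n) = 2 ^ n := by
  classical
  let _ : Fintype {w : Wd | w.length = n} := Fintype.ofEquiv _ (wordsEquiv n).symm
  have e := MonoidAlgebra.supportedEquivFinsupp (R := k) (S := k) {w : Wd | w.length = n}
  have : Module.finrank k (Hn k n) = Module.finrank k ({w : Wd | w.length = n} →₀ k) :=
    e.finrank_eq
  rw [this, Module.finrank_finsupp_self, Fintype.card_congr (wordsEquiv n), card_vector]
  simp

instance finite_Hn (k : Type) [Field k] (n : ℕ) : FiniteDimensional k (Hn k n) :=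
  Module.finite_of_finrank_pos (by rw [finrank_Hn]; positivity)

end Pool.Agent.MP_70de85_al

end

-- part MP_70de85_al.GS
section

/-!
The Golod-Shafarevich inequality for graded ideals of the free algebra on two generators.
-/

namespace Pool.Agent.MP_70de85_al

open Module

section Linear

variable {k V : Type*} [Field k] [AddCommGroup V] [Module k V]

lemma finrank_sup_map_le (L U U' : Submodule k V) (T : V →ₗ[k] V) [FiniteDimensional k L]
    [FiniteDimensional k U'] (hU : U ≤ U') (hT : U.map T ≤ L) :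
    finrank k (L ⊔ U'.map T : Submodule k V) + finrank k U ≤ finrank k L + finrank k U' := by
  obtain ⟨C, hdisj, hsup⟩ := IsModularLattice.exists_disjoint_and_sup_eq hU
  have hC : C ≤ U' := hsup ▸ le_sup_right
  have : FiniteDimensional k U := Submodule.finiteDimensional_of_le hU
  have : FiniteDimensional k C := Submodule.finiteDimensional_of_le hC
  have h1 : finrank k U + finrank k C = finrank k U' := by
    have := Submodule.finrank_sup_add_finrank_inf_eq U C
    rw [hsup, hdisj.eq_bot, finrank_bot] at this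
    omega
  have h2 : (L ⊔ U'.map T : Submodule k V) = L ⊔ C.map T := by
    rw [← hsup, Submodule.map_sup, ← sup_assoc, sup_eq_left.2 hT]
  have h3 : finrank k (L ⊔ C.map T : Submodule k V) ≤ finrank k L + finrank k (C.map T) :=
    Submodule.finrank_add_le_finrank_add_finrank _ _
  have h4 : finrank k (C.map T) ≤ finrank k C := Submodule.finrank_map_le _ _
  rw [h2]
  omega

lemma finrank_sup_finsetSup_le {ι : Type*} (s : Finset ι) (L : Submodule k V)
    (U U' : ι → Submodule k V) (T : ι → V →ₗ[k] V) [FiniteDimensional k L]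
    [∀ i, FiniteDimensional k (U' i)] (hU : ∀ i, U i ≤ U' i) (hT : ∀ i ∈ s, (U i).map (T i) ≤ L) :
    FiniteDimensional k (L ⊔ s.sup (fun i => (U' i).map (T i)) : Submodule k V) ∧
    finrank k (L ⊔ s.sup (fun i => (U' i).map (T i)) : Submodule k V) ≤
      finrank k L + ∑ i ∈ s, (finrank k (U' i) - finrank k (U i)) := by
  classical
  induction s using Finset.induction_on with
  | empty =>
    rw [Finset.sup_empty, sup_bot_eq]
    exact ⟨inferInstance, by simp⟩
  | insert a s ha ih =>
    obtain ⟨ih1, ih2⟩ := ih (fun i hi => hT i (Finset.mem_insert_of_mem hi))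
    have e : (L ⊔ (insert a s).sup (fun i => (U' i).map (T i)) : Submodule k V) =
        (L ⊔ s.sup (fun i => (U' i).map (T i))) ⊔ (U' a).map (T a) := by
      rw [Finset.sup_insert, sup_assoc, sup_comm ((U' a).map (T a))]
    rw [e, Finset.sum_insert ha]
    refine ⟨inferInstance, ?_⟩
    have h1 := finrank_sup_map_le (L ⊔ s.sup (fun i => (U' i).map (T i))) (U a) (U' a) (T a)
      (hU a) ((hT a (Finset.mem_insert_self _ _)).trans le_sup_left)
    have h2 : finrank k (U a) ≤ finrank k (U' a) := Submodule.finrank_mono (hU a)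
    omega

end Linear

section Numeric

lemma tail_sum_le (n : ℕ) :
    ∑ i ∈ Finset.range n, (if 16 ≤ i then (2 * i : ℝ) * (2 / 3) ^ (i - 1) else 0) ≤ 1 / 2 := by
  have key : ∀ m : ℕ, ∑ i ∈ Finset.range (m + 16),
      (if 16 ≤ i then (2 * i : ℝ) * (2 / 3) ^ (i - 1) else 0) =
        108 * (2 / 3) ^ 15 - (6 * (m + 16) + 12) * (2 / 3) ^ (m + 15) := by
    intro m
    induction m with
    | zero =>
      rw [Finset.sum_eq_zero]
      · norm_num
      · intro i hi
        rw [if_neg]
        simp only [zero_add, Finset.mem_range] at hi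
        omega
    | succ m ih =>
      rw [show m + 1 + 16 = (m + 16) + 1 by ring, Finset.sum_range_succ, ih, if_pos (by omega),
        show m + 16 - 1 = m + 15 by omega, show m + 1 + 15 = (m + 15) + 1 by ring, pow_succ]
      push_cast
      ring
  have h1 : ∑ i ∈ Finset.range n, (if 16 ≤ i then (2 * i : ℝ) * (2 / 3) ^ (i - 1) else 0) ≤
      ∑ i ∈ Finset.range (n + 16), (if 16 ≤ i then (2 * i : ℝ) * (2 / 3) ^ (i - 1) else 0) := by
    apply Finset.sum_le_sum_of_subset_of_nonneg
    · exact Finset.range_subset_range.2 (by omega)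
    · intro i _ _
      split_ifs <;> positivity
  rw [key] at h1
  have h2 : (0 : ℝ) ≤ (6 * (n + 16) + 12) * (2 / 3) ^ (n + 15) := by positivity
  have h3 : (108 : ℝ) * (2 / 3) ^ 15 ≤ 1 / 2 := by norm_num
  linarith

lemma growth (b c : ℕ → ℕ) (hb0 : b 0 = 1) (hc0 : ∀ i, i < 16 → c i = 0)
    (hc : ∀ i, c i ≤ 2 * i)
    (hrec : ∀ n, 2 * b n ≤ b (n + 1) + ∑ i ∈ Finset.range (n + 2), c i * b (n + 1 - i)) :
    ∀ n, 0 < b n := by
  have key : ∀ n, (3 / 2 : ℝ) * b n ≤ b (n + 1) := by
    intro n
    induction n using Nat.strong_induction_on with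
    | _ n ih =>
      have hdown : ∀ j, j ≤ n → (b (n - j) : ℝ) ≤ (2 / 3) ^ j * b n := by
        intro j hj
        induction j with
        | zero => simp
        | succ j ihj =>
          have h1 := ihj (by omega)
          have h2 := ih (n - (j + 1)) (by omega)
          rw [show n - (j + 1) + 1 = n - j by omega] at h2
          rw [pow_succ]
          linarith
      have h1 : (∑ i ∈ Finset.range (n + 2), c i * b (n + 1 - i) : ℝ) ≤
          ∑ i ∈ Finset.range (n + 2),
            (if 16 ≤ i then (2 * i : ℝ) * (2 / 3) ^ (i - 1) else 0) * b n := by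
        apply Finset.sum_le_sum
        intro i hi
        simp only [Finset.mem_range] at hi
        split_ifs with h16
        · have h2 := hdown (i - 1) (by omega)
          rw [show n - (i - 1) = n + 1 - i by omega] at h2
          have h3 : (c i : ℝ) ≤ 2 * i := by exact_mod_cast hc i
          rw [mul_assoc]
          exact mul_le_mul h3 h2 (by positivity) (by positivity)
        · rw [hc0 i (by omega)]
          simp
      rw [← Finset.sum_mul] at h1
      have h2 := tail_sum_le (n + 2)
      have h3 : (2 * b n : ℝ) ≤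
          b (n + 1) + ∑ i ∈ Finset.range (n + 2), (c i : ℝ) * b (n + 1 - i) := by
        exact_mod_cast hrec n
      have h4 : (0 : ℝ) ≤ b n := by positivity
      nlinarith
  intro n
  induction n with
  | zero => omega
  | succ n ih =>
    have h1 := key n
    have h2 : (0 : ℝ) < b n := by exact_mod_cast ih
    have : (0 : ℝ) < b (n + 1) := by linarith
    exact_mod_cast this

end Numeric

variable {k : Type} [Field k]

/-- Left multiples of `U` by the two letters. -/
noncomputable def lft (U : Submodule k (FA k)) : Submodule k (FA k) :=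
  U.map (LinearMap.mulLeft k (ltr k true)) ⊔ U.map (LinearMap.mulLeft k (ltr k false))

/-- Right multiples of `U` by the two letters. -/
noncomputable def rgt (U : Submodule k (FA k)) : Submodule k (FA k) :=
  U.map (LinearMap.mulRight k (ltr k true)) ⊔ U.map (LinearMap.mulRight k (ltr k false))

lemma ltr_mul_mem_lft {U : Submodule k (FA k)} {g : FA k} (hg : g ∈ U) (z : Bool) :
    ltr k z * g ∈ lft U := by
  cases z
  · exact Submodule.mem_sup_right ⟨g, hg, rfl⟩
  · exact Submodule.mem_sup_left ⟨g, hg, rfl⟩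

lemma mul_ltr_mem_rgt {U : Submodule k (FA k)} {g : FA k} (hg : g ∈ U) (z : Bool) :
    g * ltr k z ∈ rgt U := by
  cases z
  · exact Submodule.mem_sup_right ⟨g, hg, rfl⟩
  · exact Submodule.mem_sup_left ⟨g, hg, rfl⟩

lemma lft_le {U U' : Submodule k (FA k)} (h : ∀ g ∈ U, ∀ z, ltr k z * g ∈ U') : lft U ≤ U' := by
  apply sup_le <;>
  · rintro _ ⟨g, hg, rfl⟩
    exact h g hg _

lemma rgt_le {U U' : Submodule k (FA k)} (h : ∀ g ∈ U, ∀ z, g * ltr k z ∈ U') : rgt U ≤ U' := by
  apply sup_le <;>
  · rintro _ ⟨g, hg, rfl⟩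
    exact h g hg _

/-- A graded ideal given degree by degree, with new relations `G n` in degree `n`. -/
structure IsGraded (J : ℕ → Submodule k (FA k)) (G : ℕ → Finset (FA k)) : Prop where
  zero : J 0 = ⊥
  succ : ∀ n, J (n + 1) = lft (J n) ⊔ rgt (J n) ⊔ Submodule.span k (G (n + 1) : Set (FA k))
  mem : ∀ n, ∀ g ∈ G n, g ∈ Hn k n
  g0 : G 0 = ∅

namespace IsGraded

variable {J : ℕ → Submodule k (FA k)} {G : ℕ → Finset (FA k)} (h : IsGraded J G)
include h

lemma lft_le_succ (n : ℕ) : lft (J n) ≤ J (n + 1) := by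
  rw [h.succ]
  exact le_sup_left.trans le_sup_left

lemma rgt_le_succ (n : ℕ) : rgt (J n) ≤ J (n + 1) := by
  rw [h.succ]
  exact le_sup_right.trans le_sup_left

lemma le_Hn (n : ℕ) : J n ≤ Hn k n := by
  induction n with
  | zero => rw [h.zero]; exact bot_le
  | succ n ih =>
    rw [h.succ]
    refine sup_le (sup_le (lft_le fun g hg z => ?_) (rgt_le fun g hg z => ?_)) ?_
    · rw [add_comm]
      exact mul_mem_Hn (ltr_mem_Hn z) (ih hg)
    · exact mul_mem_Hn (ih hg) (ltr_mem_Hn z)
    · rw [Submodule.span_le]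
      intro g hg
      exact h.mem _ g hg

lemma mon_mul_mem {n : ℕ} {g : FA k} (hg : g ∈ J n) (w : Wd) :
    mon k w * g ∈ J (n + w.length) := by
  induction w using FreeMonoid.inductionOn' with
  | one => simpa [mon_one] using hg
  | of_mul z w ih =>
    rw [mon_mul, mul_assoc, FreeMonoid.length_mul, FreeMonoid.length_of,
      show n + (1 + w.length) = n + w.length + 1 by ring]
    exact h.lft_le_succ _ (ltr_mul_mem_lft ih z)

lemma mon_mul_mem_lft {n : ℕ} {g : FA k} (hg : g ∈ J n) (w : Wd) {m : ℕ}
    (hw : w.length + n = m + 1) (hw1 : 1 ≤ w.length) : mon k w * g ∈ lft (J m) := by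
  induction w using FreeMonoid.inductionOn' with
  | one => simp at hw1
  | of_mul z w _ =>
    rw [mon_mul, mul_assoc]
    rw [FreeMonoid.length_mul, FreeMonoid.length_of] at hw
    have := h.mon_mul_mem hg w
    rw [show n + w.length = m by omega] at this
    exact ltr_mul_mem_lft this z

lemma mul_mon_mem {n : ℕ} {g : FA k} (hg : g ∈ J n) (l : List Bool) :
    g * mon k (FreeMonoid.ofList l) ∈ J (n + l.length) := by
  induction l using List.reverseRecOn with
  | nil => simpa [mon_one] using hg
  | append_singleton l z ih =>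
    rw [FreeMonoid.ofList_append, mon_mul, ← mul_assoc, List.length_append, List.length_singleton,
      ← add_assoc]
    exact h.rgt_le_succ _ (mul_ltr_mem_rgt ih z)

lemma mul_mon_mem_rgt {n : ℕ} {g : FA k} (hg : g ∈ J n) (l : List Bool) {m : ℕ}
    (hw : n + l.length = m + 1) (hw1 : 1 ≤ l.length) :
    g * mon k (FreeMonoid.ofList l) ∈ rgt (J m) := by
  induction l using List.reverseRecOn with
  | nil => simp at hw1
  | append_singleton l z _ =>
    rw [FreeMonoid.ofList_append, mon_mul, ← mul_assoc]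
    rw [List.length_append, List.length_singleton] at hw
    have := h.mul_mon_mem hg l
    rw [show n + l.length = m by omega] at this
    exact mul_ltr_mem_rgt this z

omit h in
/-- The index set of the relations of degree at most `n`. -/
noncomputable def rels (G : ℕ → Finset (FA k)) (n : ℕ) : Finset (Σ _ : ℕ, FA k) :=
  (Finset.range (n + 1)).sigma G

lemma le_lft_sup (n : ℕ) : J (n + 1) ≤ lft (J n) ⊔ (rels G (n + 1)).sup
    (fun p => (Hn k (n + 1 - p.1)).map (LinearMap.mulLeft k p.2)) := by
  have hG : ∀ n, Submodule.span k (G n : Set (FA k)) ≤ (rels G n).sup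
      (fun p => (Hn k (n - p.1)).map (LinearMap.mulLeft k p.2)) := by
    intro n
    rw [Submodule.span_le]
    intro g hg
    have hmem : (⟨n, g⟩ : Σ _ : ℕ, FA k) ∈ rels G n := by
      simp only [rels, Finset.mem_sigma, Finset.mem_range]
      exact ⟨by omega, hg⟩
    refine Finset.le_sup (f := fun p : Σ _ : ℕ, FA k =>
      (Hn k (n - p.1)).map (LinearMap.mulLeft k p.2)) hmem ⟨1, ?_, by simp⟩
    rw [← mon_one]
    exact mon_mem_HP (by simp)
  induction n with
  | zero =>
    rw [h.succ]
    refine sup_le (sup_le le_sup_left (rgt_le fun g hg z => ?_)) ((hG _).trans le_sup_right)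
    rw [h.zero, Submodule.mem_bot] at hg
    simp [hg]
  | succ n ih =>
    conv_lhs => rw [h.succ]
    refine sup_le (sup_le le_sup_left (rgt_le fun g hg z => ?_)) ((hG _).trans le_sup_right)
    have : lft (J n) ⊔ (rels G (n + 1)).sup
        (fun p => (Hn k (n + 1 - p.1)).map (LinearMap.mulLeft k p.2)) ≤
        (lft (J (n + 1)) ⊔ (rels G (n + 1 + 1)).sup
          (fun p => (Hn k (n + 1 + 1 - p.1)).map (LinearMap.mulLeft k p.2))).comap
            (LinearMap.mulRight k (ltr k z)) := by
      refine sup_le (lft_le fun g hg z' => ?_) (Finset.sup_le fun p hp => ?_)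
      · simp only [Submodule.mem_comap, LinearMap.mulRight_apply]
        rw [mul_assoc]
        exact Submodule.mem_sup_left
          (ltr_mul_mem_lft (h.rgt_le_succ _ (mul_ltr_mem_rgt hg z)) z')
      · rintro _ ⟨g, hg, rfl⟩
        simp only [Submodule.mem_comap, LinearMap.mulRight_apply, LinearMap.mulLeft_apply]
        have hp' : p.1 < n + 1 + 1 ∧ p.2 ∈ G p.1 := by
          simpa only [rels, Finset.mem_sigma, Finset.mem_range] using hp
        have hmem : p ∈ rels G (n + 1 + 1) := by
          simp only [rels, Finset.mem_sigma, Finset.mem_range]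
          exact ⟨by omega, hp'.2⟩
        refine Submodule.mem_sup_right (Finset.le_sup (f := fun p : Σ _ : ℕ, FA k =>
          (Hn k (n + 1 + 1 - p.1)).map (LinearMap.mulLeft k p.2)) hmem
            ⟨g * ltr k z, ?_, by simp [mul_assoc]⟩)
        rw [show n + 1 + 1 - p.1 = n + 1 - p.1 + 1 by omega]
        exact mul_mem_Hn hg (ltr_mem_Hn z)
    exact this (ih hg)

lemma finite (n : ℕ) : FiniteDimensional k (J n) :=
  Submodule.finiteDimensional_of_le (h.le_Hn n)

lemma finrank_succ_le (n : ℕ) : finrank k (J (n + 1)) ≤ 2 * finrank k (J n) +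
    ∑ i ∈ Finset.range (n + 2), (G i).card * (2 ^ (n + 1 - i) - finrank k (J (n + 1 - i))) := by
  have := h.finite n
  have : FiniteDimensional k (lft (J n)) := by
    unfold lft
    infer_instance
  have h1 : finrank k (lft (J n)) ≤ 2 * finrank k (J n) := by
    unfold lft
    have h3 := Submodule.finrank_add_le_finrank_add_finrank
      ((J n).map (LinearMap.mulLeft k (ltr k true))) ((J n).map (LinearMap.mulLeft k (ltr k false)))
    have h4 := Submodule.finrank_map_le (LinearMap.mulLeft k (ltr k true)) (J n)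
    have h5 := Submodule.finrank_map_le (LinearMap.mulLeft k (ltr k false)) (J n)
    omega
  obtain ⟨h2, h3⟩ := finrank_sup_finsetSup_le (rels G (n + 1)) (lft (J n))
    (fun p => J (n + 1 - p.1)) (fun p => Hn k (n + 1 - p.1))
    (fun p => LinearMap.mulLeft k p.2) (fun p => h.le_Hn _) (by
      rintro p hp _ ⟨g, hg, rfl⟩
      have hp' : p.1 < n + 1 + 1 ∧ p.2 ∈ G p.1 := by
        simpa only [rels, Finset.mem_sigma, Finset.mem_range] using hp
      have hp1 : 1 ≤ p.1 := by
        by_contra h0
        have : p.1 = 0 := by omega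
        rw [this, h.g0] at hp'
        simp at hp'
      simp only [LinearMap.mulLeft_apply]
      refine HP_induction (motive := fun a => a * g ∈ lft (J n)) (h.mem _ _ hp'.2) ?_ (by simp)
        ?_ ?_
      · intro w hw
        exact h.mon_mul_mem_lft hg w (by omega) (by omega)
      · intro a b ha hb
        rw [add_mul]
        exact Submodule.add_mem _ ha hb
      · intro c a ha
        rw [smul_mul_assoc]
        exact Submodule.smul_mem _ _ ha)
  have h4 := Submodule.finrank_mono (h.le_lft_sup n)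
  have h5 : ∑ p ∈ rels G (n + 1), (finrank k (Hn k (n + 1 - p.1)) - finrank k (J (n + 1 - p.1))) =
      ∑ i ∈ Finset.range (n + 2), (G i).card * (2 ^ (n + 1 - i) - finrank k (J (n + 1 - i))) := by
    unfold rels
    rw [Finset.sum_sigma]
    apply Finset.sum_congr rfl
    intro i _
    rw [← smul_eq_mul, ← Finset.sum_const]
    apply Finset.sum_congr rfl
    intro g _
    rw [finrank_Hn]
  omega

/-- Golod-Shafarevich: few relations of high degree do not kill any homogeneous component. -/
theorem finrank_lt (hG0 : ∀ i, i < 16 → G i = ∅) (hG : ∀ i, (G i).card ≤ 2 * i) (n : ℕ) :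
    finrank k (J n) < 2 ^ n := by
  have hle : ∀ n, finrank k (J n) ≤ 2 ^ n := fun n => by
    rw [← finrank_Hn k n]
    exact Submodule.finrank_mono (h.le_Hn n)
  have := growth (fun n => 2 ^ n - finrank k (J n)) (fun i => (G i).card) (by rw [h.zero]; simp)
    (fun i hi => by simp [hG0 i hi]) hG (fun n => by
      have h1 := h.finrank_succ_le n
      have h2 := hle n
      have h3 := hle (n + 1)
      rw [pow_succ] at h3 ⊢
      omega) n
  omega

end IsGraded

end Pool.Agent.MP_70de85_al

end

-- part MP_70de85_al.Frattini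
section

/-!
An ideal `I` of the free algebra over the field with two elements, such that modulo `I` every pair
with independent linear parts generates the augmentation ideal, together with a functional which
kills the decomposable part of `I` and takes the value one on arbitrarily long monomials of `I`.
-/

namespace Pool.Agent.MP_70de85_al

open Module

/-- The field with two elements. -/
abbrev K2 := ZMod 2

/-- The determinant of the linear parts of two elements. -/
noncomputable def det {R : Type} [CommRing R] (a b : FA R) : R :=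
  a.coeff (FreeMonoid.of true) * b.coeff (FreeMonoid.of false) -
    b.coeff (FreeMonoid.of true) * a.coeff (FreeMonoid.of false)

lemma smul_mem_closure (S : NonUnitalSubring (FA K2)) (c : K2) {g : FA K2} (hg : g ∈ S) :
    c • g ∈ S := by
  have : ∀ c : K2, c = 0 ∨ c = 1 := by decide
  rcases this c with rfl | rfl
  · rw [zero_smul]
    exact S.zero_mem
  · rwa [one_smul]

lemma closure_le_Hge {a b : FA K2} (ha : a ∈ Hge K2 1) (hb : b ∈ Hge K2 1) {s : FA K2}
    (hs : s ∈ NonUnitalSubring.closure ({a, b} : Set (FA K2))) : s ∈ Hge K2 1 := by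
  induction hs using NonUnitalSubring.closure_induction with
  | mem x hx =>
    rcases hx with rfl | rfl
    · exact ha
    · exact hb
  | zero => exact Submodule.zero_mem _
  | add x y _ _ hx hy => exact Submodule.add_mem _ hx hy
  | neg x _ hx => exact Submodule.neg_mem _ hx
  | mul x y _ _ hx hy => exact Hge_mono (by omega) (mul_mem_Hge hx hy)

lemma coeff_ltr {R : Type} [CommRing R] (z z' : Bool) :
    (ltr R z).coeff (FreeMonoid.of z') = if z = z' then 1 else 0 := by
  classical
  unfold ltr
  rw [coeff_mon]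
  simp [FreeMonoid.of_injective.eq_iff]

lemma approx_ltr {a b : FA K2} (ha : a ∈ Hge K2 1) (hb : b ∈ Hge K2 1) (hd : det a b = 1)
    (z : Bool) :
    ∃ s ∈ NonUnitalSubring.closure ({a, b} : Set (FA K2)), ltr K2 z - s ∈ Hge K2 2 := by
  have haS : a ∈ NonUnitalSubring.closure ({a, b} : Set (FA K2)) :=
    NonUnitalSubring.subset_closure (by simp)
  have hbS : b ∈ NonUnitalSubring.closure ({a, b} : Set (FA K2)) :=
    NonUnitalSubring.subset_closure (by simp)
  unfold det at hd
  cases z
  · refine ⟨a.coeff (FreeMonoid.of true) • b - b.coeff (FreeMonoid.of true) • a,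
      sub_mem (smul_mem_closure _ _ hbS) (smul_mem_closure _ _ haS), ?_⟩
    apply mem_Hge_two
    · exact Submodule.sub_mem _ (ltr_mem_Hge _)
        (Submodule.sub_mem _ (Submodule.smul_mem _ _ hb) (Submodule.smul_mem _ _ ha))
    · intro z'
      simp only [MonoidAlgebra.coeff_sub, MonoidAlgebra.coeff_smul, Finsupp.sub_apply,
        Finsupp.smul_apply, smul_eq_mul, coeff_ltr]
      cases z'
      · simp only [if_true]
        linear_combination -hd
      · simp only [Bool.false_eq_true, if_false]
        ring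
  · refine ⟨b.coeff (FreeMonoid.of false) • a - a.coeff (FreeMonoid.of false) • b,
      sub_mem (smul_mem_closure _ _ haS) (smul_mem_closure _ _ hbS), ?_⟩
    apply mem_Hge_two
    · exact Submodule.sub_mem _ (ltr_mem_Hge _)
        (Submodule.sub_mem _ (Submodule.smul_mem _ _ ha) (Submodule.smul_mem _ _ hb))
    · intro z'
      simp only [MonoidAlgebra.coeff_sub, MonoidAlgebra.coeff_smul, Finsupp.sub_apply,
        Finsupp.smul_apply, smul_eq_mul, coeff_ltr]
      cases z'
      · simp only [Bool.true_eq_false, if_false]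
        ring
      · simp only [if_true]
        linear_combination -hd

lemma approx_mon {a b : FA K2} (ha : a ∈ Hge K2 1) (hb : b ∈ Hge K2 1) (hd : det a b = 1)
    (w : Wd) (hw : 1 ≤ w.length) :
    ∃ s ∈ NonUnitalSubring.closure ({a, b} : Set (FA K2)),
      mon K2 w - s ∈ Hge K2 (w.length + 1) := by
  induction w using FreeMonoid.inductionOn' with
  | one => simp at hw
  | of_mul z w ih =>
    obtain ⟨s, hs, hzs⟩ := approx_ltr ha hb hd z
    rcases Nat.eq_zero_or_pos w.length with h0 | h0
    · rw [FreeMonoid.length_eq_zero] at h0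
      subst h0
      exact ⟨s, hs, by simpa [ltr] using hzs⟩
    · obtain ⟨t, ht, hwt⟩ := ih h0
      refine ⟨s * t, mul_mem hs ht, ?_⟩
      have e : mon K2 (FreeMonoid.of z * w) - s * t =
          (ltr K2 z - s) * mon K2 w + s * (mon K2 w - t) := by
        rw [mon_mul, sub_mul, mul_sub]
        unfold ltr
        abel
      rw [e, FreeMonoid.length_mul, FreeMonoid.length_of]
      apply Submodule.add_mem
      · exact Hge_mono (by omega) (mul_mem_Hge hzs (mon_mem_HP (le_refl w.length)))
      · exact Hge_mono (by omega) (mul_mem_Hge (closure_le_Hge ha hb hs) hwt)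

lemma approx_step {a b : FA K2} (ha : a ∈ Hge K2 1) (hb : b ∈ Hge K2 1) (hd : det a b = 1)
    {n : ℕ} (hn : 1 ≤ n) {g : FA K2} (hg : g ∈ Hge K2 n) :
    ∃ s ∈ NonUnitalSubring.closure ({a, b} : Set (FA K2)), g - s ∈ Hge K2 (n + 1) := by
  refine HP_induction (motive := fun g =>
    ∃ s ∈ NonUnitalSubring.closure ({a, b} : Set (FA K2)), g - s ∈ Hge K2 (n + 1)) hg ?_ ?_ ?_ ?_
  · intro w hw
    obtain ⟨s, hs, hws⟩ := approx_mon ha hb hd w (hn.trans hw)
    exact ⟨s, hs, Hge_mono (by omega) hws⟩
  · exact ⟨0, zero_mem _, by simp⟩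
  · rintro x y ⟨s, hs, hx⟩ ⟨t, ht, hy⟩
    refine ⟨s + t, add_mem hs ht, ?_⟩
    rw [add_sub_add_comm]
    exact Submodule.add_mem _ hx hy
  · rintro c x ⟨s, hs, hx⟩
    refine ⟨c • s, smul_mem_closure _ _ hs, ?_⟩
    rw [← smul_sub]
    exact Submodule.smul_mem _ _ hx

lemma approx {a b : FA K2} (ha : a ∈ Hge K2 1) (hb : b ∈ Hge K2 1) (hd : det a b = 1)
    {g : FA K2} (hg : g ∈ Hge K2 1) (n : ℕ) :
    ∃ s ∈ NonUnitalSubring.closure ({a, b} : Set (FA K2)), g - s ∈ Hge K2 (n + 1) := by
  induction n with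
  | zero => exact ⟨0, zero_mem _, by simpa using hg⟩
  | succ n ih =>
    obtain ⟨s, hs, hgs⟩ := ih
    obtain ⟨t, ht, hgt⟩ := approx_step ha hb hd (by omega) hgs
    exact ⟨s + t, add_mem hs ht, by rwa [← sub_sub]⟩

instance : Countable (FA K2) :=
  have : Countable Wd := inferInstanceAs (Countable (List Bool))
  (MonoidAlgebra.coeffEquiv (R := K2) (M := Wd)).injective.countable

/-- The relations: a family indexed by `ℕ × Bool` with growing orders. -/
lemma exists_rel : ∃ rel : ℕ → Bool → FA K2, (∀ e z, rel e z ∈ Hge K2 (16 + e)) ∧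
    ∀ a ∈ Hge K2 1, ∀ b ∈ Hge K2 1, det a b = 1 → ∃ e, ∀ z,
      ∃ s ∈ NonUnitalSubring.closure ({a, b} : Set (FA K2)), rel e z = ltr K2 z - s := by
  obtain ⟨en, hen⟩ := exists_surjective_nat (FA K2 × FA K2)
  have : ∀ e z, ∃ r : FA K2, r ∈ Hge K2 (16 + e) ∧
      ((en e).1 ∈ Hge K2 1 → (en e).2 ∈ Hge K2 1 → det (en e).1 (en e).2 = 1 →
        ∃ s ∈ NonUnitalSubring.closure ({(en e).1, (en e).2} : Set (FA K2)),
          r = ltr K2 z - s) := by
    intro e z
    by_cases h : (en e).1 ∈ Hge K2 1 ∧ (en e).2 ∈ Hge K2 1 ∧ det (en e).1 (en e).2 = 1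
    · obtain ⟨s, hs, hzs⟩ := approx h.1 h.2.1 h.2.2 (ltr_mem_Hge z) (15 + e)
      exact ⟨ltr K2 z - s, Hge_mono (by omega) hzs, fun _ _ _ => ⟨s, hs, rfl⟩⟩
    · exact ⟨0, Submodule.zero_mem _, fun h1 h2 h3 => absurd ⟨h1, h2, h3⟩ h⟩
  choose rel hrel1 hrel2 using this
  refine ⟨rel, hrel1, fun a ha b hb hd => ?_⟩
  obtain ⟨e, he⟩ := hen (a, b)
  refine ⟨e, fun z => ?_⟩
  have := hrel2 e z
  rw [he] at this
  exact this ha hb hd

section Construction

open Classical

variable (rel : ℕ → Bool → FA K2)

/-- The degree `n` components of the first relations. -/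
noncomputable def Fr (n : ℕ) : Finset (FA K2) :=
  ((Finset.range (n - 15)) ×ˢ (Finset.univ : Finset Bool)).image fun p => comp n (rel p.1 p.2)

/-- The degree `n` part of the ideal before the new monomial is added. -/
noncomputable def pre (U : Submodule K2 (FA K2)) (n : ℕ) : Submodule K2 (FA K2) :=
  lft U ⊔ rgt U ⊔ Submodule.span K2 (Fr rel n : Set (FA K2))

/-- The new monomial relation. -/
noncomputable def newRel (U : Submodule K2 (FA K2)) (n : ℕ) : Finset (FA K2) :=
  if h : 16 ≤ n ∧ ∃ w : Wd, w.length = n ∧ mon K2 w ∉ pre rel U n then {mon K2 h.2.choose} else ∅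

/-- The graded ideal. -/
noncomputable def JJ : ℕ → Submodule K2 (FA K2)
  | 0 => ⊥
  | n + 1 => pre rel (JJ n) (n + 1) ⊔
      Submodule.span K2 (newRel rel (JJ n) (n + 1) : Set (FA K2))

/-- The relations of the graded ideal. -/
noncomputable def GG : ℕ → Finset (FA K2)
  | 0 => ∅
  | n + 1 => Fr rel (n + 1) ∪ newRel rel (JJ rel n) (n + 1)

lemma isGraded : IsGraded (JJ rel) (GG rel) where
  zero := rfl
  succ n := by
    simp only [JJ, GG, pre, Finset.coe_union, Submodule.span_union, sup_assoc]
  mem n g hg := by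
    cases n with
    | zero => simp [GG] at hg
    | succ n =>
      simp only [GG, Finset.mem_union] at hg
      rcases hg with hg | hg
      · obtain ⟨p, _, rfl⟩ := Finset.mem_image.1 hg
        exact comp_mem_Hn _ _
      · unfold newRel at hg
        split_ifs at hg with h
        · rw [Finset.mem_singleton] at hg
          rw [hg]
          exact mon_mem_HP h.2.choose_spec.1
        · simp at hg
  g0 := rfl

lemma GG_eq_empty (i : ℕ) (hi : i < 16) : GG rel i = ∅ := by
  cases i with
  | zero => rfl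
  | succ n =>
    have h1 : n + 1 - 15 = 0 := by omega
    have h2 : ¬ (16 ≤ n + 1) := by omega
    simp [GG, Fr, newRel, h1, h2]

lemma card_GG (i : ℕ) : (GG rel i).card ≤ 2 * i := by
  by_cases hi : i < 16
  · rw [GG_eq_empty rel i hi]
    simp
  cases i with
  | zero => omega
  | succ n =>
    have h1 : (Fr rel (n + 1)).card ≤ (n + 1 - 15) * 2 := by
      refine Finset.card_image_le.trans ?_
      simp
    have h2 : (newRel rel (JJ rel n) (n + 1)).card ≤ 1 := by
      unfold newRel
      split_ifs <;> simp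
    have h3 := Finset.card_union_le (Fr rel (n + 1)) (newRel rel (JJ rel n) (n + 1))
    simp only [GG]
    omega

lemma JJ_eq_bot (n : ℕ) (hn : n < 16) : JJ rel n = ⊥ := by
  induction n with
  | zero => rfl
  | succ n ih =>
    rw [(isGraded rel).succ, ih (by omega), GG_eq_empty rel _ hn]
    simp [lft, rgt]

lemma exists_new (n : ℕ) (hn : 16 ≤ n + 1) : ∃ w : Wd, w.length = n + 1 ∧
    mon K2 w ∈ JJ rel (n + 1) ∧ mon K2 w ∉ pre rel (JJ rel n) (n + 1) := by
  have h : ∃ w : Wd, w.length = n + 1 ∧ mon K2 w ∉ pre rel (JJ rel n) (n + 1) := by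
    by_contra hcon
    push Not at hcon
    have h1 : Hn K2 (n + 1) ≤ JJ rel (n + 1) :=
      (HP_le hcon).trans le_sup_left
    have := (isGraded rel).finite (n + 1)
    have h2 := Submodule.finrank_mono h1
    have h3 := (isGraded rel).finrank_lt (GG_eq_empty rel) (card_GG rel) (n + 1)
    rw [finrank_Hn] at h2
    omega
  refine ⟨h.choose, h.choose_spec.1, ?_, h.choose_spec.2⟩
  apply Submodule.mem_sup_right
  apply Submodule.subset_span
  unfold newRel
  rw [dif_pos ⟨hn, h⟩]
  simp

end Construction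

theorem exists_ideal : ∃ (I : Submodule K2 (FA K2)) (l : FA K2 →ₗ[K2] K2),
    I ≤ Hge K2 3 ∧
    (∀ g ∈ I, ∀ h ∈ Hge K2 1, h * g ∈ I ∧ g * h ∈ I ∧ l (h * g) = 0 ∧ l (g * h) = 0) ∧
    (∀ N, ∃ w : Wd, N ≤ w.length ∧ mon K2 w ∈ I ∧ l (mon K2 w) = 1) ∧
    (∀ a ∈ Hge K2 1, ∀ b ∈ Hge K2 1, det a b = 1 → ∀ g ∈ Hge K2 1,
      ∃ s ∈ NonUnitalSubring.closure ({a, b} : Set (FA K2)), g - s ∈ I) := by
  obtain ⟨rel, hrel1, hrel2⟩ := exists_rel
  have hG := isGraded rel
  have hfun : ∀ n : ℕ, ∃ f : FA K2 →ₗ[K2] K2, (∀ g ∈ pre rel (JJ rel (n - 1)) n, f g = 0) ∧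
      (16 ≤ n → ∃ w : Wd, w.length = n ∧ mon K2 w ∈ JJ rel n ∧ f (mon K2 w) = 1) := by
    intro n
    by_cases hn : 16 ≤ n
    · obtain ⟨m, rfl⟩ : ∃ m, n = m + 1 := ⟨n - 1, by omega⟩
      obtain ⟨w, hw1, hw2, hw3⟩ := exists_new rel m hn
      obtain ⟨f, hf1, hf2⟩ := LinearMap.exists_extend_of_notMem
        (0 : pre rel (JJ rel m) (m + 1) →ₗ[K2] K2) hw3 1
      refine ⟨f, fun g hg => ?_, fun _ => ⟨w, hw1, hw2, hf2⟩⟩
      exact LinearMap.congr_fun hf1 ⟨g, hg⟩
    · exact ⟨0, fun _ _ => rfl, fun h => absurd h hn⟩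
  choose f hf1 hf2 using hfun
  let l : FA K2 →ₗ[K2] K2 :=
    (MonoidAlgebra.basis Wd K2).constr K2 fun w => f w.length (mon K2 w)
  have hl_mon : ∀ w, l (mon K2 w) = f w.length (mon K2 w) := fun w =>
    (MonoidAlgebra.basis Wd K2).constr_basis K2 (fun w => f w.length (mon K2 w)) w
  have hl : ∀ n, ∀ g ∈ Hn K2 n, l g = f n g := by
    intro n g hg
    refine HP_induction (motive := fun g => l g = f n g) hg ?_ (by simp) ?_ ?_
    · intro w hw
      rw [hl_mon, hw]
    · intro a b ha hb
      simp [ha, hb]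
    · intro c a ha
      simp [ha]
  have hpre : ∀ n, ∀ g ∈ pre rel (JJ rel n) (n + 1), g ∈ (⨆ n, JJ rel n) ⊓ LinearMap.ker l := by
    intro n g hg
    have h1 : g ∈ JJ rel (n + 1) := Submodule.mem_sup_left hg
    refine ⟨Submodule.mem_iSup_of_mem (n + 1) h1, ?_⟩
    rw [SetLike.mem_coe, LinearMap.mem_ker, hl (n + 1) g (hG.le_Hn _ h1)]
    exact hf1 (n + 1) g hg
  have hmul : ∀ g ∈ (⨆ n, JJ rel n), ∀ h ∈ Hge K2 1,
      h * g ∈ (⨆ n, JJ rel n) ⊓ LinearMap.ker l ∧ g * h ∈ (⨆ n, JJ rel n) ⊓ LinearMap.ker l := by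
    intro g hg h hh
    induction hg using Submodule.iSup_induction' with
    | mem n g hg =>
      refine HP_induction (motive := fun h => h * g ∈ (⨆ n, JJ rel n) ⊓ LinearMap.ker l ∧
        g * h ∈ (⨆ n, JJ rel n) ⊓ LinearMap.ker l) hh ?_ (by simp) ?_ ?_
      · intro w hw
        constructor
        · apply hpre (w.length + n - 1)
          exact Submodule.mem_sup_left (Submodule.mem_sup_left
            (hG.mon_mul_mem_lft hg w (by omega) hw))
        · apply hpre (w.length + n - 1)
          have hw' : 1 ≤ w.toList.length := hw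
          have hw'' : w.toList.length = w.length := rfl
          exact Submodule.mem_sup_left (Submodule.mem_sup_right
            (hG.mul_mon_mem_rgt hg w.toList (by omega) hw'))
      · rintro a b ⟨ha1, ha2⟩ ⟨hb1, hb2⟩
        rw [add_mul, mul_add]
        exact ⟨Submodule.add_mem _ ha1 hb1, Submodule.add_mem _ ha2 hb2⟩
      · rintro c a ⟨ha1, ha2⟩
        rw [smul_mul_assoc, mul_smul_comm]
        exact ⟨Submodule.smul_mem _ _ ha1, Submodule.smul_mem _ _ ha2⟩
    | zero => simp
    | add a b _ _ ha hb =>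
      rw [add_mul, mul_add]
      exact ⟨Submodule.add_mem _ ha.1 hb.1, Submodule.add_mem _ ha.2 hb.2⟩
  have hle : (⨆ n, JJ rel n) ≤ Hge K2 3 := by
    refine iSup_le fun n => ?_
    by_cases hn : n < 16
    · rw [JJ_eq_bot rel n hn]
      exact bot_le
    · exact (hG.le_Hn n).trans (Hn_le_Hge (by omega))
  refine ⟨⨆ n, JJ rel n, l, hle, ?_, ?_, ?_⟩
  · intro g hg h hh
    obtain ⟨⟨h1, h2⟩, h3, h4⟩ := hmul g hg h hh
    exact ⟨h1, h3, h2, h4⟩
  · intro N
    obtain ⟨w, hw1, hw2, hw3⟩ := hf2 (N + 16) (by omega)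
    refine ⟨w, by omega, Submodule.mem_iSup_of_mem _ hw2, ?_⟩
    rw [hl_mon, hw1, hw3]
  · intro a ha b hb hd g hg
    obtain ⟨e, he⟩ := hrel2 a ha b hb hd
    have hrelI : ∀ z, rel e z ∈ ⨆ n, JJ rel n := by
      intro z
      apply mem_of_comp_mem
      intro n
      by_cases hn : n < 16 + e
      · rw [comp_eq_zero (hrel1 e z) hn]
        exact Submodule.zero_mem _
      · obtain ⟨m, rfl⟩ : ∃ m, n = m + 1 := ⟨n - 1, by omega⟩
        apply Submodule.mem_iSup_of_mem (m + 1)
        apply Submodule.mem_sup_left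
        apply Submodule.mem_sup_right
        apply Submodule.subset_span
        classical
        simp only [Fr, Finset.coe_image, Set.mem_image]
        exact ⟨(e, z), by simp; omega, rfl⟩
    have hmon : ∀ w : Wd, 1 ≤ w.length →
        ∃ s ∈ NonUnitalSubring.closure ({a, b} : Set (FA K2)), mon K2 w - s ∈ ⨆ n, JJ rel n := by
      intro w hw
      induction w using FreeMonoid.inductionOn' with
      | one => simp at hw
      | of_mul z w ih =>
        obtain ⟨s, hs, hzs⟩ := he z
        have hzs' := hrelI z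
        rw [hzs] at hzs'
        rcases Nat.eq_zero_or_pos w.length with h0 | h0
        · rw [FreeMonoid.length_eq_zero] at h0
          subst h0
          exact ⟨s, hs, by simpa [ltr] using hzs'⟩
        · obtain ⟨t, ht, hwt⟩ := ih h0
          refine ⟨s * t, mul_mem hs ht, ?_⟩
          have e : mon K2 (FreeMonoid.of z * w) - s * t =
              (ltr K2 z - s) * mon K2 w + s * (mon K2 w - t) := by
            rw [mon_mul, sub_mul, mul_sub]
            unfold ltr
            abel
          rw [e]
          apply Submodule.add_mem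
          · exact (hmul _ hzs' _ (mon_mem_HP h0)).2.1
          · exact (hmul _ hwt _ (closure_le_Hge ha hb hs)).1.1
    refine HP_induction (motive := fun g =>
      ∃ s ∈ NonUnitalSubring.closure ({a, b} : Set (FA K2)), g - s ∈ ⨆ n, JJ rel n) hg hmon
      ?_ ?_ ?_
    · exact ⟨0, zero_mem _, by simp⟩
    · rintro x y ⟨s, hs, hx⟩ ⟨t, ht, hy⟩
      refine ⟨s + t, add_mem hs ht, ?_⟩
      rw [add_sub_add_comm]
      exact Submodule.add_mem _ hx hy
    · rintro c x ⟨s, hs, hx⟩
      refine ⟨c • s, smul_mem_closure _ _ hs, ?_⟩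
      rw [← smul_sub]
      exact Submodule.smul_mem _ _ hx

end Pool.Agent.MP_70de85_al

end

-- part MP_70de85_al.Abstract
section

/-!
The abstract step: from a ring with an ideal `K` and an element `m` outside `K` with four
properties we get an infinite critical quotient.
-/

namespace Pool.Agent.MP_70de85_al

/-- The identity `2 (x_0 x_1 - x_1 x_0)`. -/
noncomputable def comm2 : FreeSemigroup ℕ →₀ ℤ :=
  Finsupp.single (FreeSemigroup.of 0 * FreeSemigroup.of 1) 2 -
    Finsupp.single (FreeSemigroup.of 1 * FreeSemigroup.of 0) 2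

lemma satisfies_comm2 (A : Type*) [NonUnitalRing A] :
    Satisfies A comm2 ↔ ∀ a b : A, (2 : ℤ) • (a * b - b * a) = 0 := by
  have key : ∀ v : ℕ → A, (comm2.sum fun w c => c • FreeSemigroup.lift v w) =
      (2 : ℤ) • (v 0 * v 1 - v 1 * v 0) := by
    intro v
    unfold comm2
    rw [Finsupp.sum_sub_index (by intro a b c; rw [sub_smul])]
    rw [Finsupp.sum_single_index (by simp), Finsupp.sum_single_index (by simp)]
    simp [smul_sub]
  constructor
  · intro h a b
    have := h (fun n => if n = 0 then a else b)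
    rw [key] at this
    simpa using this
  · intro h v
    rw [key]
    exact h _ _

/-- The quotient map as a non-unital ring homomorphism. -/
def qmap {F : Type*} [NonUnitalRing F] (T : TwoSidedIdeal F) : F →ₙ+* T.ringCon.Quotient where
  toFun x := (x : T.ringCon.Quotient)
  map_mul' x y := RingCon.coe_mul _ x y
  map_zero' := RingCon.coe_zero _
  map_add' x y := RingCon.coe_add _ x y

lemma qmap_surjective {F : Type*} [NonUnitalRing F] (T : TwoSidedIdeal F) :
    Function.Surjective (qmap T) := fun q => Quotient.inductionOn' q fun x => ⟨x, rfl⟩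

lemma qmap_eq_zero {F : Type*} [NonUnitalRing F] (T : TwoSidedIdeal F) (x : F) :
    qmap T x = 0 ↔ x ∈ T := by
  rw [TwoSidedIdeal.mem_iff, ← RingCon.eq]
  rfl

lemma exists_maximal_avoiding {F : Type*} [NonUnitalRing F] (K : TwoSidedIdeal F) (m : F)
    (hm : m ∉ K) :
    ∃ T : TwoSidedIdeal F, K ≤ T ∧ m ∉ T ∧ ∀ T' : TwoSidedIdeal F, T ≤ T' → m ∉ T' → T' ≤ T := by
  have := zorn_le_nonempty₀ {T : TwoSidedIdeal F | m ∉ T} (fun c hc hchain y hy => by
    refine ⟨TwoSidedIdeal.mk' {x | ∃ T ∈ c, x ∈ T} ⟨y, hy, y.zero_mem⟩ ?_ ?_ ?_ ?_, ?_, ?_⟩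
    · rintro a b ⟨T₁, h₁, ha⟩ ⟨T₂, h₂, hb⟩
      rcases hchain.total h₁ h₂ with h | h
      · exact ⟨T₂, h₂, T₂.add_mem (h ha) hb⟩
      · exact ⟨T₁, h₁, T₁.add_mem ha (h hb)⟩
    · rintro a ⟨T₁, h₁, ha⟩
      exact ⟨T₁, h₁, T₁.neg_mem ha⟩
    · rintro a b ⟨T₁, h₁, hb⟩
      exact ⟨T₁, h₁, T₁.mul_mem_left _ _ hb⟩
    · rintro a b ⟨T₁, h₁, ha⟩
      exact ⟨T₁, h₁, T₁.mul_mem_right _ _ ha⟩
    · simp only [Set.mem_ofPred_eq, TwoSidedIdeal.mem_mk', not_exists, not_and]
      intro T hT
      exact hc hT
    · intro T hT x hx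
      simp only [TwoSidedIdeal.mem_mk', Set.mem_ofPred_eq]
      exact ⟨T, hT, hx⟩) K hm
  obtain ⟨T, hKT, hmax⟩ := this
  exact ⟨T, hKT, hmax.prop, fun T' h h' => hmax.le_of_ge h' h⟩

/-- A ring in which `m ≠ 0` lies in every nonzero ideal, and `2 [a, b]` is `0` or `m`, the latter
only when `a, b` generate the ring, and `m` does occur, is critical. -/
lemma isCritical_of {R : Type*} [NonUnitalRing R] (m : R) (hm : m ≠ 0)
    (hmon : ∀ J : TwoSidedIdeal R, J ≠ ⊥ → m ∈ J)
    (h2 : ∀ a b : R, (2 : ℤ) • (a * b - b * a) = 0 ∨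
      ((2 : ℤ) • (a * b - b * a) = m ∧ NonUnitalSubring.closure {a, b} = ⊤))
    (h0 : ∃ a b : R, (2 : ℤ) • (a * b - b * a) = m) : IsCritical R := by
  intro h
  have hR := h comm2 ?_
  · rw [satisfies_comm2] at hR
    obtain ⟨a, b, hab⟩ := h0
    exact hm (hab ▸ hR a b)
  intro S J hSJ
  rw [satisfies_comm2]
  intro a b
  obtain ⟨a, rfl⟩ := qmap_surjective J a
  obtain ⟨b, rfl⟩ := qmap_surjective J b
  have : (2 : ℤ) • (qmap J a * qmap J b - qmap J b * qmap J a) =
      qmap J ((2 : ℤ) • (a * b - b * a)) := by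
    simp [map_zsmul, map_sub, map_mul]
  rw [this, qmap_eq_zero]
  rcases h2 a b with h0' | ⟨hab, hgen⟩
  · have : (2 : ℤ) • (a * b - b * a) = 0 := by
      apply Subtype.ext
      simpa using h0'
    rw [this]
    exact J.zero_mem
  · have hS : S = ⊤ := by
      rw [eq_top_iff, ← hgen, NonUnitalSubring.closure_le]
      rintro x (rfl | rfl)
      · exact a.2
      · exact b.2
    subst hS
    have hJ : J ≠ ⊥ := by
      rcases hSJ with h | h
      · exact absurd rfl h
      · exact h
    let e : R →ₙ+* (⊤ : NonUnitalSubring R) :=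
      NonUnitalRingHom.codRestrict (NonUnitalRingHom.id R) ⊤ (fun x => trivial)
    have hJ' : TwoSidedIdeal.comap e J ≠ ⊥ := by
      intro hbot
      apply hJ
      rw [eq_bot_iff]
      intro x hx
      have hx' : (x : R) ∈ TwoSidedIdeal.comap e J := by
        rw [TwoSidedIdeal.mem_comap]
        exact hx
      rw [hbot, TwoSidedIdeal.mem_bot] at hx'
      rw [TwoSidedIdeal.mem_bot]
      exact Subtype.ext hx'
    have hmJ := hmon _ hJ'
    rw [TwoSidedIdeal.mem_comap] at hmJ
    have : (2 : ℤ) • (a * b - b * a) = e m := by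
      apply Subtype.ext
      have : ((e m : (⊤ : NonUnitalSubring R)) : R) = m := rfl
      rw [this]
      simpa using hab
    rw [this]
    exact hmJ

theorem exists_infinite_critical_quotient {F : Type*} [NonUnitalRing F] (K : TwoSidedIdeal F)
    (m : F) (h1 : m ∉ K)
    (h0 : ∃ a b : F, (2 : ℤ) • (a * b - b * a) - m ∈ K)
    (h2 : ∀ a b : F, (2 : ℤ) • (a * b - b * a) ∈ K ∨
      ((2 : ℤ) • (a * b - b * a) - m ∈ K ∧
        ∀ g : F, ∃ s ∈ NonUnitalSubring.closure ({a, b} : Set F), g - s ∈ K))
    (h3 : ∀ w : F, ∃ t : F, w - (t - w * t) ∈ K)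
    (h4 : ∀ N : ℕ, ∃ π : ℕ → F, (∀ i j, i < j → j ≤ N → ∃ w, π j = π i * w) ∧ π N - m ∈ K) :
    ∃ T : TwoSidedIdeal F, Infinite T.ringCon.Quotient ∧ IsCritical T.ringCon.Quotient := by
  obtain ⟨T, hKT, hmT, hmax⟩ := exists_maximal_avoiding K m h1
  have hq : ∀ x y : F, x - y ∈ K → qmap T x = qmap T y := by
    intro x y h
    rw [← sub_eq_zero, ← map_sub, qmap_eq_zero]
    exact hKT h
  have hm : qmap T m ≠ 0 := by
    rw [Ne, qmap_eq_zero]
    exact hmT
  refine ⟨T, ?_, ?_⟩
  · by_contra hfin
    rw [not_infinite_iff_finite] at hfin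
    obtain ⟨N, ⟨e⟩⟩ := Finite.exists_equiv_fin T.ringCon.Quotient
    obtain ⟨π, hπ, hπN⟩ := h4 N
    obtain ⟨i, j, hij, heq⟩ := Fintype.exists_ne_map_eq_of_card_lt
      (fun i : Fin (N + 1) => e (qmap T (π i))) (by simp)
    have heq' : qmap T (π i) = qmap T (π j) := e.injective heq
    have main : ∀ i j : ℕ, i < j → j ≤ N → qmap T (π i) = qmap T (π j) → False := by
      intro i j hij hj h
      obtain ⟨w, hw⟩ := hπ i j hij hj
      obtain ⟨t, ht⟩ := h3 w
      have ht' := hq _ _ ht
      rw [hw, map_mul] at h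
      have hzero : qmap T (π i) = 0 := by
        calc qmap T (π i) = qmap T (π i) * qmap T w := h
          _ = qmap T (π i) * (qmap T t - qmap T w * qmap T t) := by
              conv_lhs => rw [ht']
              simp [map_sub, map_mul]
          _ = qmap T (π i) * qmap T t - (qmap T (π i) * qmap T w) * qmap T t := by
              rw [mul_sub, mul_assoc]
          _ = 0 := by rw [← h, sub_self]
      obtain ⟨w', hw'⟩ := hπ i N (lt_of_lt_of_le hij hj) le_rfl
      apply hm
      rw [← hq _ _ hπN, hw', map_mul, hzero, zero_mul]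
    rcases lt_or_gt_of_ne hij with h | h
    · exact main i j h (Nat.lt_succ_iff.mp j.2) heq'
    · exact main j i h (Nat.lt_succ_iff.mp i.2) heq'.symm
  · have hv : ∀ a b : F, (2 : ℤ) • (qmap T a * qmap T b - qmap T b * qmap T a) =
        qmap T ((2 : ℤ) • (a * b - b * a)) := by
      intro a b
      simp [map_zsmul, map_sub, map_mul]
    refine isCritical_of (qmap T m) hm ?_ ?_ ?_
    · intro J hJ
      by_contra hmJ
      apply hJ
      have hle : TwoSidedIdeal.comap (qmap T) J ≤ T := by
        apply hmax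
        · intro x hx
          rw [TwoSidedIdeal.mem_comap, (qmap_eq_zero T x).2 hx]
          exact J.zero_mem
        · rw [TwoSidedIdeal.mem_comap]
          exact hmJ
      rw [eq_bot_iff]
      intro x hx
      obtain ⟨x, rfl⟩ := qmap_surjective T x
      rw [TwoSidedIdeal.mem_bot, qmap_eq_zero]
      apply hle
      rw [TwoSidedIdeal.mem_comap]
      exact hx
    · intro a b
      obtain ⟨a, rfl⟩ := qmap_surjective T a
      obtain ⟨b, rfl⟩ := qmap_surjective T b
      rw [hv]
      rcases h2 a b with h | ⟨h, hgen⟩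
      · left
        rw [qmap_eq_zero]
        exact hKT h
      · right
        refine ⟨hq _ _ h, ?_⟩
        rw [eq_top_iff]
        intro g _
        obtain ⟨g, rfl⟩ := qmap_surjective T g
        obtain ⟨s, hs, hgs⟩ := hgen g
        rw [hq _ _ hgs]
        have : NonUnitalSubring.closure ({a, b} : Set F) ≤
            (NonUnitalSubring.closure ({qmap T a, qmap T b} : Set _)).comap (qmap T) := by
          rw [NonUnitalSubring.closure_le]
          rintro x (rfl | rfl)
          · exact NonUnitalSubring.subset_closure (by simp)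
          · exact NonUnitalSubring.subset_closure (by simp)
        exact this hs
    · obtain ⟨a, b, hab⟩ := h0
      exact ⟨qmap T a, qmap T b, by rw [hv]; exact hq _ _ hab⟩

end Pool.Agent.MP_70de85_al

end

-- part MP_70de85_al.Glue
section

/-!
Gluing: an ideal of the free non-unital algebra over `ZMod 4`.
-/

namespace Pool.Agent.MP_70de85_al

/-- The integers modulo four. -/
abbrev K4 := ZMod 4

/-- Reduction modulo two of coefficients. -/
def red0 : K4 →+* K2 := ZMod.castHom (by norm_num : 2 ∣ 4) K2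

/-- Reduction modulo two. -/
noncomputable def red : FA K4 →+* FA K2 := MonoidAlgebra.mapRingHom Wd red0

lemma coeff_red (g : FA K4) (w : Wd) : (red g).coeff w = red0 (g.coeff w) :=
  MonoidAlgebra.coeff_mapRingHom _ _ _

lemma red_mon (w : Wd) : red (mon K4 w) = mon K2 w := by
  simp [red, mon]

lemma red_mem_Hge {n : ℕ} {g : FA K4} (hg : g ∈ Hge K4 n) : red g ∈ Hge K2 n := by
  rw [mem_HP] at hg ⊢
  intro w hw
  rw [coeff_red, hg w hw, map_zero]

lemma coeff_zsmul {R : Type} [CommRing R] (n : ℤ) (g : FA R) (w : Wd) :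
    (n • g).coeff w = (n : R) * g.coeff w := by
  rw [MonoidAlgebra.coeff_smul, Finsupp.smul_apply, zsmul_eq_mul]

lemma red_two_smul (g : FA K4) : red ((2 : ℤ) • g) = 0 := by
  rw [map_zsmul]
  ext w
  have : ∀ c : K2, ((2 : ℤ) : K2) * c = 0 := by decide
  rw [coeff_zsmul]
  exact this _

/-- The additive embedding of `ZMod 2` in `ZMod 4`. -/
def dbl (c : K2) : K4 := if c = 0 then 0 else 2

lemma dbl_add : ∀ c d : K2, dbl (c + d) = dbl c + dbl d := by decide

lemma neg_dbl : ∀ c : K2, -dbl c = dbl c := by decide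

lemma dbl_zero : dbl 0 = 0 := by decide

/-- The free non-unital algebra on two generators over `ZMod 4`. -/
noncomputable def PP : NonUnitalSubring (FA K4) where
  carrier := Hge K4 1
  add_mem' ha hb := Submodule.add_mem _ ha hb
  zero_mem' := Submodule.zero_mem _
  mul_mem' ha hb := Hge_mono (by omega) (mul_mem_Hge ha hb)
  neg_mem' ha := Submodule.neg_mem _ ha

lemma mem_PP {g : FA K4} : g ∈ PP ↔ g ∈ Hge K4 1 := Iff.rfl

/-- The word `x y`. -/
def wxy : Wd := FreeMonoid.of true * FreeMonoid.of false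

lemma coeff_mul_of {a b : FA K4} (ha : a ∈ Hge K4 1) (hb : b ∈ Hge K4 1) (z : Bool) :
    (a * b).coeff (FreeMonoid.of z) = 0 :=
  coeff_eq_zero_of_mem_Hge (mul_mem_Hge ha hb) (by simp)

section

variable (I : Submodule K2 (FA K2)) (l : FA K2 →ₗ[K2] K2)
  (hI : ∀ g ∈ I, ∀ h ∈ Hge K2 1, h * g ∈ I ∧ g * h ∈ I ∧ l (h * g) = 0 ∧ l (g * h) = 0)

/-- The glued ideal. -/
noncomputable def KK : TwoSidedIdeal PP :=
  TwoSidedIdeal.mk' {g : PP | red g ∈ I ∧ (∀ z, (g : FA K4).coeff (FreeMonoid.of z) = 0) ∧
      (g : FA K4).coeff wxy = dbl (l (red g))}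
    (by simp [dbl_zero])
    (by
      rintro a b ⟨ha1, ha2, ha3⟩ ⟨hb1, hb2, hb3⟩
      refine ⟨?_, fun z => ?_, ?_⟩
      · simpa using I.add_mem ha1 hb1
      · simp [ha2, hb2]
      · simp [ha3, hb3, dbl_add])
    (by
      rintro a ⟨ha1, ha2, ha3⟩
      refine ⟨?_, fun z => ?_, ?_⟩
      · simpa using ha1
      · simp [ha2]
      · simp [ha3, neg_dbl])
    (by
      rintro a b ⟨hb1, hb2, -⟩
      obtain ⟨h1, -, h3, -⟩ := hI _ hb1 _ (red_mem_Hge a.2)
      refine ⟨?_, fun z => coeff_mul_of a.2 b.2 z, ?_⟩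
      · simpa using h1
      · have e : red ((a * b : PP) : FA K4) = red a * red b := by simp
        rw [e, h3, dbl_zero]
        have := coeff_mul_two (R := K4) a.2 b.2 true false
        rw [hb2, mul_zero] at this
        exact this)
    (by
      rintro a b ⟨ha1, ha2, -⟩
      obtain ⟨-, h2, -, h4⟩ := hI _ ha1 _ (red_mem_Hge b.2)
      refine ⟨?_, fun z => coeff_mul_of a.2 b.2 z, ?_⟩
      · simpa using h2
      · have e : red ((a * b : PP) : FA K4) = red a * red b := by simp
        rw [e, h4, dbl_zero]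
        have := coeff_mul_two (R := K4) a.2 b.2 true false
        rw [ha2, zero_mul] at this
        exact this)

lemma mem_KK (g : PP) : g ∈ KK I l hI ↔
    red g ∈ I ∧ (∀ z, (g : FA K4).coeff (FreeMonoid.of z) = 0) ∧
      (g : FA K4).coeff wxy = dbl (l (red g)) := by
  unfold KK
  rw [TwoSidedIdeal.mem_mk']
  rfl

end

/-- A letter in the non-unital algebra. -/
noncomputable def lt (z : Bool) : PP := ⟨ltr K4 z, ltr_mem_Hge z⟩

/-- A nonempty monomial in the non-unital algebra. -/
noncomputable def mn (w : Wd) (hw : 1 ≤ w.length) : PP := ⟨mon K4 w, mon_mem_HP hw⟩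

/-- Twice the commutator. -/
noncomputable def c2 (a b : PP) : PP := (2 : ℤ) • (a * b - b * a)

lemma red_c2 (a b : PP) : red (c2 a b : FA K4) = 0 := red_two_smul _

lemma coeff_c2_of (a b : PP) (z : Bool) : (c2 a b : FA K4).coeff (FreeMonoid.of z) = 0 := by
  have h1 := coeff_mul_of a.2 b.2 z
  have h2 := coeff_mul_of b.2 a.2 z
  simp [c2, h1, h2, -zsmul_eq_mul]

lemma coeff_c2_wxy (a b : PP) : (c2 a b : FA K4).coeff wxy = 2 * det (a : FA K4) b := by
  have h1 := coeff_mul_two (R := K4) a.2 b.2 true false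
  have h2 := coeff_mul_two (R := K4) b.2 a.2 true false
  simp [c2, wxy, h1, h2, det, -zsmul_eq_mul]
  simp

lemma det_lt : det (lt true : FA K4) (lt false) = 1 := by
  simp [det, lt, coeff_ltr]

lemma det_red (a b : FA K4) : det (red a) (red b) = red0 (det a b) := by
  simp [det, coeff_red]

lemma exists_lift {a b : PP} {s : FA K2}
    (hs : s ∈ NonUnitalSubring.closure ({red a, red b} : Set (FA K2))) :
    ∃ t ∈ NonUnitalSubring.closure ({a, b} : Set PP), red (t : FA K4) = s := by
  induction hs using NonUnitalSubring.closure_induction with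
  | mem x hx =>
    rcases hx with rfl | rfl
    · exact ⟨a, NonUnitalSubring.subset_closure (by simp), rfl⟩
    · exact ⟨b, NonUnitalSubring.subset_closure (by simp), rfl⟩
  | zero => exact ⟨0, zero_mem _, by simp⟩
  | add x y _ _ hx hy =>
    obtain ⟨s, hs, rfl⟩ := hx
    obtain ⟨t, ht, rfl⟩ := hy
    exact ⟨s + t, add_mem hs ht, by simp⟩
  | neg x _ hx =>
    obtain ⟨s, hs, rfl⟩ := hx
    exact ⟨-s, neg_mem hs, by simp⟩
  | mul x y _ _ hx hy =>
    obtain ⟨s, hs, rfl⟩ := hx
    obtain ⟨t, ht, rfl⟩ := hy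
    exact ⟨s * t, mul_mem hs ht, by simp⟩

theorem exists_infinite_critical :
    ∃ (R : Type) (_ : NonUnitalRing R), Infinite R ∧ IsCritical R := by
  classical
  obtain ⟨I, l, hI3, hI, hlong, hgen⟩ := exists_ideal
  have hhalf : ∀ c : K4, red0 c = 0 → ∃ d : K4, c = 2 * d := by decide
  have hred_dbl : ∀ c : K2, red0 (dbl c) = 0 := by decide
  -- elements whose reduction lies in `I` are in `KK` up to twice an element
  have hL : ∀ g : PP, red g ∈ I → ∃ h : PP, g - (2 : ℤ) • h ∈ KK I l hI := by
    intro g hg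
    have hz : ∀ w : Wd, w.length < 3 → red0 ((g : FA K4).coeff w) = 0 := by
      intro w hw
      rw [← coeff_red]
      exact coeff_eq_zero_of_mem_Hge (hI3 hg) hw
    obtain ⟨α, hα⟩ := hhalf _ (hz (FreeMonoid.of true) (by simp))
    obtain ⟨β, hβ⟩ := hhalf _ (hz (FreeMonoid.of false) (by simp))
    obtain ⟨γ, hγ⟩ := hhalf ((g : FA K4).coeff wxy - dbl (l (red g))) (by
      rw [map_sub, hz wxy (by simp [wxy]), hred_dbl, sub_zero])
    refine ⟨⟨α • ltr K4 true + β • ltr K4 false + γ • mon K4 wxy, ?_⟩, ?_⟩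
    · exact Submodule.add_mem _ (Submodule.add_mem _ (Submodule.smul_mem _ _ (ltr_mem_Hge _))
        (Submodule.smul_mem _ _ (ltr_mem_Hge _)))
        (Submodule.smul_mem _ _ (mon_mem_HP (by simp [wxy])))
    · rw [mem_KK]
      have hne : ∀ z, wxy ≠ FreeMonoid.of z := by
        intro z h
        have := congrArg FreeMonoid.length h
        simp [wxy] at this
      have e : ∀ h : PP, red ((g - (2 : ℤ) • h : PP) : FA K4) = red g := by
        intro h
        have := red_two_smul (h : FA K4)
        simp only [AddSubgroupClass.coe_sub, map_sub, AddSubgroupClass.coe_zsmul, this, sub_zero]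
      rw [e]
      refine ⟨hg, fun z => ?_, ?_⟩
      · cases z
        · simp [coeff_ltr, coeff_mon, hne, hβ, -zsmul_eq_mul]
          simp
        · simp [coeff_ltr, coeff_mon, hne, hα, -zsmul_eq_mul]
          simp
      · have h1 : ∀ z, (ltr K4 z).coeff wxy = 0 := by
          intro z
          unfold ltr
          rw [coeff_mon, if_neg (hne z).symm]
        simp only [AddSubgroupClass.coe_sub, AddSubgroupClass.coe_zsmul, MonoidAlgebra.coeff_sub,
          Finsupp.sub_apply, coeff_zsmul]
        simp only [MonoidAlgebra.coeff_smul, MonoidAlgebra.coeff_add,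
          Finsupp.smul_apply, Finsupp.add_apply, h1, coeff_mon, if_true, smul_eq_mul]
        push_cast
        linear_combination hγ
  have hgen4 : ∀ a b : PP, red0 (det (a : FA K4) b) = 1 → ∀ g : PP,
      ∃ s ∈ NonUnitalSubring.closure ({a, b} : Set PP), g - s ∈ KK I l hI := by
    intro a b hd
    have h1 : ∀ g : PP, ∃ s ∈ NonUnitalSubring.closure ({a, b} : Set PP), ∃ h : PP,
        g - s - (2 : ℤ) • h ∈ KK I l hI := by
      intro g
      obtain ⟨s, hs, hgs⟩ := hgen _ (red_mem_Hge a.2) _ (red_mem_Hge b.2)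
        (by rw [det_red, hd]) _ (red_mem_Hge g.2)
      obtain ⟨t, ht, rfl⟩ := exists_lift hs
      obtain ⟨h, hh⟩ := hL (g - t) (by simpa using hgs)
      exact ⟨t, ht, h, hh⟩
    intro g
    obtain ⟨s, hs, h, hh⟩ := h1 g
    obtain ⟨s', hs', h', hh'⟩ := h1 h
    refine ⟨s + (2 : ℤ) • s', add_mem hs (zsmul_mem hs' 2), ?_⟩
    have h4 : (4 : ℤ) • h' = 0 := by
      apply Subtype.ext
      ext w
      have : ∀ c : K4, ((4 : ℤ) : K4) * c = 0 := by decide
      rw [AddSubgroupClass.coe_zsmul, coeff_zsmul]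
      exact this _
    have e : g - (s + (2 : ℤ) • s') =
        (g - s - (2 : ℤ) • h) + (2 : ℤ) • (h - s' - (2 : ℤ) • h') + (4 : ℤ) • h' := by
      module
    rw [e, h4, add_zero]
    exact TwoSidedIdeal.add_mem _ hh (TwoSidedIdeal.zsmul_mem _ 2 hh')
  obtain ⟨T, hT1, hT2⟩ := exists_infinite_critical_quotient (KK I l hI) (c2 (lt true) (lt false))
    (by
      rw [mem_KK, red_c2, coeff_c2_wxy, det_lt, map_zero, dbl_zero]
      rintro ⟨-, -, h⟩
      exact absurd h (by decide))
    ⟨lt true, lt false, by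
      rw [← c2, sub_self]
      exact TwoSidedIdeal.zero_mem _⟩
    (by
      intro a b
      have hcases : ∀ c : K4, 2 * c = 0 ∨ (2 * c - 2 * 1 = 0 ∧ red0 c = 1) := by decide
      rw [← c2]
      rcases hcases (det (a : FA K4) b) with h | ⟨h, hd⟩
      · left
        rw [mem_KK, red_c2, coeff_c2_wxy, map_zero, dbl_zero]
        exact ⟨I.zero_mem, coeff_c2_of a b, h⟩
      · right
        refine ⟨?_, hgen4 a b hd⟩
        rw [mem_KK]
        have e : red ((c2 a b - c2 (lt true) (lt false) : PP) : FA K4) = 0 := by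
          simp [red_c2]
        rw [e, map_zero, dbl_zero]
        refine ⟨I.zero_mem, fun z => ?_, ?_⟩
        · simp [coeff_c2_of]
        · simp only [AddSubgroupClass.coe_sub, MonoidAlgebra.coeff_sub, Finsupp.sub_apply,
            coeff_c2_wxy, det_lt]
          exact h)
    (by
      intro w
      have hd : red0 (det ((lt true - w * lt true : PP) : FA K4)
          ((lt false - w * lt false : PP) : FA K4)) = 1 := by
        have h1 : ∀ z z', ((w : FA K4) * ltr K4 z).coeff (FreeMonoid.of z') = 0 :=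
          fun z z' => coeff_mul_of w.2 (ltr_mem_Hge z) z'
        simp [det, lt, h1, coeff_ltr]
      obtain ⟨s, hs, hws⟩ := hgen4 _ _ hd w
      have : ∃ t, s = t - w * t := by
        clear hws
        induction hs using NonUnitalSubring.closure_induction with
        | mem x hx =>
          rcases hx with rfl | rfl
          · exact ⟨_, rfl⟩
          · exact ⟨_, rfl⟩
        | zero => exact ⟨0, by simp⟩
        | add x y _ _ hx hy =>
          obtain ⟨s, rfl⟩ := hx
          obtain ⟨t, rfl⟩ := hy
          exact ⟨s + t, by rw [mul_add]; abel⟩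
        | neg x _ hx =>
          obtain ⟨s, rfl⟩ := hx
          exact ⟨-s, by rw [mul_neg]; abel⟩
        | mul x y _ _ hx _ =>
          obtain ⟨s, rfl⟩ := hx
          exact ⟨s * y, by rw [sub_mul, mul_assoc]⟩
      obtain ⟨t, rfl⟩ := this
      exact ⟨t, hws⟩)
    (by
      intro N
      obtain ⟨w, hw, hwI, hwl⟩ := hlong (N + 3)
      obtain ⟨d, hd⟩ : ∃ d, w.toList.length = d + 3 + N := ⟨w.length - 3 - N, by
        have : w.toList.length = w.length := rfl
        omega⟩
      have hlen : ∀ i, 1 ≤ (FreeMonoid.ofList (w.toList.take (d + 3 + i))).length := by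
        intro i
        change 1 ≤ (w.toList.take (d + 3 + i)).length
        rw [List.length_take]
        omega
      refine ⟨fun i => mn (FreeMonoid.ofList (w.toList.take (d + 3 + i))) (hlen i), ?_, ?_⟩
      · intro i j hij hj
        refine ⟨mn (FreeMonoid.ofList ((w.toList.drop (d + 3 + i)).take (j - i))) ?_, ?_⟩
        · change 1 ≤ ((w.toList.drop (d + 3 + i)).take (j - i)).length
          rw [List.length_take, List.length_drop]
          omega
        · apply Subtype.ext
          change mon K4 _ = mon K4 _ * mon K4 _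
          rw [← mon_mul, ← FreeMonoid.ofList_append, ← List.take_add]
          congr 3
          omega
      · have e0 : FreeMonoid.ofList (w.toList.take (d + 3 + N)) = w := by
          rw [← hd, List.take_length]
          rfl
        rw [mem_KK]
        have e1 : ((mn (FreeMonoid.ofList (w.toList.take (d + 3 + N))) (hlen N) : PP) : FA K4) =
            mon K4 w := by
          rw [mn]
          simp only [e0]
        have hw3 : mon K4 w ∈ Hge K4 3 := mon_mem_HP (by omega)
        simp only [AddSubgroupClass.coe_sub, e1, map_sub, red_c2, sub_zero, red_mon, hwl,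
          MonoidAlgebra.coeff_sub, Finsupp.sub_apply, coeff_c2_of, coeff_c2_wxy, det_lt]
        refine ⟨hwI, fun z => coeff_eq_zero_of_mem_Hge hw3 (by simp), ?_⟩
        rw [coeff_eq_zero_of_mem_Hge hw3 (by simp [wxy])]
        decide)
  exact ⟨_, inferInstance, hT1, hT2⟩

end Pool.Agent.MP_70de85_al

end
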